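import Mathlib

/-!
# The Baire space and the real line

The map `S : ℕ^ℕ → ℝ`, `S x = ∑_k 2^(-(x_0 + ... + x_k + k + 1))`, is a continuous bijection onto
`(0, 1]`; it and its inverse preserve meager sets.
-/

set_option autoImplicit false

open Set Filter Topology TopologicalSpace

namespace Pool.Agent.KS6_94.LZ

abbrev NN : Type := ℕ → ℕ

def ax (x : NN) (k : ℕ) : ℕ := ∑ i ∈ Finset.range (k + 1), (x i + 1)

def sh (x : NN) : NN := fun i => x (i + 1)

theorem le_ax (x : NN) (k : ℕ) : k + 1 ≤ ax x k := by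
  unfold ax
  calc k + 1 = ∑ _i ∈ Finset.range (k + 1), 1 := by simp
    _ ≤ _ := Finset.sum_le_sum fun i _ => by omega

theorem ax_zero (x : NN) : ax x 0 = x 0 + 1 := by simp [ax]

theorem ax_succ (x : NN) (k : ℕ) : ax x (k + 1) = (x 0 + 1) + ax (sh x) k := by
  unfold ax sh
  rw [Finset.sum_range_succ' _ (k + 1)]
  ring

noncomputable def S (x : NN) : ℝ := ∑' k, (1 / 2 : ℝ) ^ ax x k

theorem bound (x : NN) (k : ℕ) : (1 / 2 : ℝ) ^ ax x k ≤ (1 / 2 : ℝ) ^ (k + 1) :=
  pow_le_pow_of_le_one (by norm_num) (by norm_num) (le_ax x k)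

theorem summable_half : Summable fun k : ℕ => (1 / 2 : ℝ) ^ (k + 1) := by
  have h := summable_geometric_of_lt_one (r := (1 / 2 : ℝ)) (by norm_num) (by norm_num)
  exact (summable_nat_add_iff 1).2 h

theorem tsum_half : ∑' k : ℕ, (1 / 2 : ℝ) ^ (k + 1) = 1 := by
  have h := tsum_geometric_of_lt_one (r := (1 / 2 : ℝ)) (by norm_num) (by norm_num)
  simp_rw [pow_succ]
  rw [tsum_mul_right, h]
  norm_num

theorem summable_S (x : NN) : Summable fun k => (1 / 2 : ℝ) ^ ax x k :=
  Summable.of_nonneg_of_le (fun _ => by positivity) (bound x) summable_half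

theorem S_nonneg (x : NN) : 0 ≤ S x := tsum_nonneg fun _ => by positivity

theorem S_le (x : NN) : S x ≤ 1 := by
  rw [← tsum_half]
  exact (summable_S x).tsum_le_tsum (bound x) summable_half

theorem S_rec (x : NN) : S x = (1 / 2 : ℝ) ^ (x 0 + 1) * (1 + S (sh x)) := by
  have h1 : S x = (1 / 2 : ℝ) ^ ax x 0 + ∑' k, (1 / 2 : ℝ) ^ ax x (k + 1) :=
    (summable_S x).tsum_eq_zero_add
  rw [h1, ax_zero]
  simp_rw [ax_succ, pow_add (1 / 2 : ℝ) (x 0 + 1) (ax (sh x) _)]
  rw [tsum_mul_left]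
  unfold S
  ring

theorem S_pos (x : NN) : 0 < S x := by
  rw [S_rec]
  have := S_nonneg (sh x)
  positivity

theorem S_cont : Continuous S := by
  unfold S
  refine continuous_tsum (u := fun k => (1 / 2 : ℝ) ^ (k + 1)) (fun k => ?_) summable_half ?_
  · have h1 : Continuous fun x : NN => ax x k := by
      unfold ax
      exact continuous_finsetSum _ fun i _ => by fun_prop
    exact (continuous_of_discreteTopology (f := fun n : ℕ => (1 / 2 : ℝ) ^ n)).comp h1
  · intro k x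
    rw [Real.norm_of_nonneg (by positivity)]
    exact bound x k

theorem dig_unique {m m' : ℕ} {t t' : ℝ} (h0 : 0 < t) (h1 : t ≤ 1) (h0' : 0 < t') (h1' : t' ≤ 1)
    (h : (1 / 2 : ℝ) ^ (m + 1) * (1 + t) = (1 / 2 : ℝ) ^ (m' + 1) * (1 + t')) :
    m = m' ∧ t = t' := by
  have key : ∀ {m m' : ℕ} {t t' : ℝ}, 0 < t → t' ≤ 1 →
      (1 / 2 : ℝ) ^ (m + 1) * (1 + t) = (1 / 2 : ℝ) ^ (m' + 1) * (1 + t') → m' ≤ m := by
    intro m m' t t' h0 h1' h
    by_contra hlt
    push Not at hlt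
    have h2 : (1 / 2 : ℝ) ^ m' ≤ (1 / 2 : ℝ) ^ (m + 1) :=
      pow_le_pow_of_le_one (by norm_num) (by norm_num) hlt
    have h3 : (1 / 2 : ℝ) ^ (m' + 1) = (1 / 2 : ℝ) ^ m' * (1 / 2) := pow_succ _ _
    have h4 : (0 : ℝ) < (1 / 2 : ℝ) ^ m' := by positivity
    have h5 : (0 : ℝ) < (1 / 2 : ℝ) ^ (m + 1) := by positivity
    rw [h3] at h
    nlinarith [mul_pos h5 h0, mul_nonneg h4.le (sub_nonneg.2 h1')]
  have e : m = m' := le_antisymm (key h0' h1 h.symm) (key h0 h1' h)
  subst e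
  refine ⟨rfl, ?_⟩
  have h5 : (0 : ℝ) < (1 / 2 : ℝ) ^ (m + 1) := by positivity
  have := mul_left_cancel₀ h5.ne' h
  linarith

theorem S_inj : Function.Injective S := by
  have key : ∀ n : ℕ, ∀ x y : NN, S x = S y → x n = y n := by
    intro n
    induction n with
    | zero =>
      intro x y h
      rw [S_rec x, S_rec y] at h
      exact (dig_unique (S_pos _) (S_le _) (S_pos _) (S_le _) h).1
    | succ n ih =>
      intro x y h
      rw [S_rec x, S_rec y] at h
      exact ih (sh x) (sh y) (dig_unique (S_pos _) (S_le _) (S_pos _) (S_le _) h).2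
  intro x y h
  funext n
  exact key n x y h

theorem dig_exists (t : Ioc (0 : ℝ) 1) : ∃ (m : ℕ) (t' : Ioc (0 : ℝ) 1),
    (t : ℝ) = (1 / 2 : ℝ) ^ (m + 1) * (1 + t') := by
  obtain ⟨m, h1, h2⟩ := exists_nat_pow_near_of_lt_one t.2.1 t.2.2
    (show (0 : ℝ) < 1 / 2 by norm_num) (by norm_num)
  have h3 : (0 : ℝ) < (1 / 2 : ℝ) ^ (m + 1) := by positivity
  have h4 : (1 / 2 : ℝ) ^ m = 2 * (1 / 2 : ℝ) ^ (m + 1) := by rw [pow_succ]; ring
  refine ⟨m, ⟨(t : ℝ) / (1 / 2 : ℝ) ^ (m + 1) - 1, ?_, ?_⟩, ?_⟩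
  · rw [sub_pos, lt_div_iff₀ h3]
    linarith
  · rw [sub_le_iff_le_add, div_le_iff₀ h3]
    linarith
  · field_simp
    ring

noncomputable def dg (t : Ioc (0 : ℝ) 1) : ℕ := (dig_exists t).choose

noncomputable def nx (t : Ioc (0 : ℝ) 1) : Ioc (0 : ℝ) 1 := (dig_exists t).choose_spec.choose

theorem dg_spec (t : Ioc (0 : ℝ) 1) : (t : ℝ) = (1 / 2 : ℝ) ^ (dg t + 1) * (1 + nx t) :=
  (dig_exists t).choose_spec.choose_spec

noncomputable def code (t : Ioc (0 : ℝ) 1) : NN := fun n => dg (nx^[n] t)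

theorem sh_code (t : Ioc (0 : ℝ) 1) : sh (code t) = code (nx t) := by
  funext n
  simp [sh, code]

theorem S_code (t : Ioc (0 : ℝ) 1) : S (code t) = t := by
  have key : ∀ n : ℕ, ∀ t : Ioc (0 : ℝ) 1, |S (code t) - t| ≤ (1 / 2 : ℝ) ^ n := by
    intro n
    induction n with
    | zero =>
      intro t
      have h1 := S_pos (code t)
      have h2 := S_le (code t)
      have h3 := t.2.1
      have h4 := t.2.2
      rw [abs_le]
      constructor <;> norm_num <;> linarith
    | succ n ih =>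
      intro t
      have h1 : S (code t) - t = (1 / 2 : ℝ) ^ (dg t + 1) * (S (code (nx t)) - nx t) := by
        rw [S_rec, sh_code]
        conv_lhs => rw [dg_spec t]
        have : code t 0 = dg t := rfl
        rw [this]
        ring
      rw [h1, abs_mul, abs_of_pos (by positivity : (0 : ℝ) < (1 / 2 : ℝ) ^ (dg t + 1))]
      have h2 : (1 / 2 : ℝ) ^ (dg t + 1) ≤ 1 / 2 := by
        calc (1 / 2 : ℝ) ^ (dg t + 1) ≤ (1 / 2 : ℝ) ^ 1 :=
              pow_le_pow_of_le_one (by norm_num) (by norm_num) (by omega)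
          _ = 1 / 2 := by norm_num
      calc (1 / 2 : ℝ) ^ (dg t + 1) * |S (code (nx t)) - nx t|
          ≤ (1 / 2) * (1 / 2 : ℝ) ^ n :=
            mul_le_mul h2 (ih (nx t)) (abs_nonneg _) (by norm_num)
        _ = (1 / 2 : ℝ) ^ (n + 1) := by rw [pow_succ]; ring
  have h2 : ∀ ε : ℝ, 0 < ε → |S (code t) - t| ≤ 0 + ε := by
    intro ε hε
    obtain ⟨n, hn⟩ := exists_pow_lt_of_lt_one hε (show (1 / 2 : ℝ) < 1 by norm_num)
    rw [zero_add]
    exact (key n t).trans hn.le
  have h3 := le_of_forall_pos_le_add h2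
  have h4 := abs_nonpos_iff.1 h3
  linarith

theorem S_prefix : ∀ (n : ℕ) (z : NN), ∃ c d : ℝ, 0 < d ∧ ∀ y : NN, (∀ i < n, y i = z i) →
    S y = c + d * S (fun i => y (i + n)) := by
  intro n
  induction n with
  | zero => exact fun z => ⟨0, 1, one_pos, fun y _ => by simp⟩
  | succ n ih =>
    intro z
    obtain ⟨c, d, hd, h⟩ := ih (sh z)
    refine ⟨(1 / 2 : ℝ) ^ (z 0 + 1) * (1 + c), (1 / 2 : ℝ) ^ (z 0 + 1) * d, by positivity, ?_⟩
    intro y hy
    rw [S_rec y, hy 0 (by omega), h (sh y) fun i hi => hy (i + 1) (by omega)]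
    have : (fun i => sh y (i + n)) = fun i => y (i + (n + 1)) := by
      funext i
      simp only [sh]
      congr 1
    rw [this]
    ring

/-- The image of a cylinder contains an interval. -/
theorem S_cyl (n : ℕ) (z : NN) : ∃ a b : ℝ, a < b ∧ Ioo a b ⊆ S '' {y | ∀ i < n, y i = z i} := by
  obtain ⟨c, d, hd, h⟩ := S_prefix n z
  refine ⟨c, c + d, by linarith, ?_⟩
  intro t ht
  have h1 : (t - c) / d ∈ Ioc (0 : ℝ) 1 := by
    constructor
    · apply div_pos _ hd
      linarith [ht.1]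
    · rw [div_le_one hd]
      linarith [ht.2]
  let y : NN := fun i => if i < n then z i else code ⟨_, h1⟩ (i - n)
  have hy : ∀ i < n, y i = z i := fun i hi => if_pos hi
  have hy2 : (fun i => y (i + n)) = code ⟨_, h1⟩ := by
    funext i
    simp [y]
  refine ⟨y, hy, ?_⟩
  rw [h y hy, hy2, S_code]
  field_simp
  ring

theorem exists_cyl {U : Set NN} (hU : IsOpen U) {z : NN} (hz : z ∈ U) :
    ∃ n : ℕ, {y : NN | ∀ i < n, y i = z i} ⊆ U := by
  obtain ⟨I, u, h1, h2⟩ := isOpen_pi_iff.1 hU z hz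
  obtain ⟨n, hn⟩ : ∃ n, ∀ i ∈ I, i < n := by
    refine ⟨I.sup id + 1, fun i hi => Nat.lt_succ_of_le (Finset.le_sup (f := id) hi)⟩
  refine ⟨n, fun y hy => h2 fun i hi => ?_⟩
  rw [hy i (hn i hi)]
  exact (h1 i hi).2

theorem isOpen_cyl (n : ℕ) (z : NN) : IsOpen {y : NN | ∀ i < n, y i = z i} := by
  have : {y : NN | ∀ i < n, y i = z i} = ⋂ i ∈ Finset.range n, (fun y : NN => y i) ⁻¹' {z i} := by
    ext y
    simp
  rw [this]
  exact isOpen_biInter_finset fun i _ => (isOpen_discrete _).preimage (continuous_apply i)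

theorem S_open {U : Set NN} (hU : IsOpen U) (hne : U.Nonempty) :
    ∃ a b : ℝ, a < b ∧ Ioo a b ⊆ S '' U := by
  obtain ⟨z, hz⟩ := hne
  obtain ⟨n, hn⟩ := exists_cyl hU hz
  obtain ⟨a, b, hab, h⟩ := S_cyl n z
  exact ⟨a, b, hab, h.trans (image_mono hn)⟩

theorem meagre_of_cover {α β : Type} [TopologicalSpace α] [TopologicalSpace β] {M : Set α}
    (hM : IsMeagre M) (F : Set α → Set β) (h1 : ∀ t, IsNowhereDense t → IsMeagre (F t))
    {N : Set β} (h2 : ∀ s : Set (Set α), M ⊆ ⋃₀ s → N ⊆ ⋃ t ∈ s, F t) : IsMeagre N := by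
  obtain ⟨s, hs, hsc, hMs⟩ := isMeagre_iff_countable_union_isNowhereDense.1 hM
  exact (isMeagre_biUnion hsc fun t ht => h1 t (hs t ht)).mono (h2 s hMs)

theorem nd_closed {α : Type} [TopologicalSpace α] {F : Set α} (hF : IsClosed F)
    (h : ∀ U : Set α, IsOpen U → U.Nonempty → ∃ x ∈ U, x ∉ F) : IsMeagre F := by
  refine (hF.isNowhereDense_iff.2 ?_).isMeagre
  by_contra hne
  obtain ⟨x, hx, hxF⟩ := h _ isOpen_interior (nonempty_iff_ne_empty.2 hne)
  exact hxF (interior_subset hx)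

theorem nd_closure {α : Type} [TopologicalSpace α] {t : Set α} (ht : IsNowhereDense t)
    {U : Set α} (hU : IsOpen U) (hne : U.Nonempty) : (U \ closure t).Nonempty := by
  by_contra h
  rw [not_nonempty_iff_eq_empty, sdiff_eq_empty] at h
  have h1 : U ⊆ interior (closure t) := interior_maximal h hU
  rw [show interior (closure t) = ∅ from ht] at h1
  exact hne.ne_empty (subset_empty_iff.1 h1)

theorem preim_meagre {M : Set ℝ} (hM : IsMeagre M) : IsMeagre (S ⁻¹' M) := by
  refine meagre_of_cover hM (fun t => S ⁻¹' closure t) (fun t ht => ?_) fun s hs => ?_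
  · refine nd_closed (isClosed_closure.preimage S_cont) fun U hU hne => ?_
    obtain ⟨a, b, hab, h⟩ := S_open hU hne
    obtain ⟨y, hy, hyt⟩ := nd_closure ht isOpen_Ioo (nonempty_Ioo.2 hab)
    obtain ⟨x, hx, rfl⟩ := h hy
    exact ⟨x, hx, hyt⟩
  · intro x hx
    obtain ⟨t, ht, hxt⟩ := hs hx
    exact mem_biUnion ht (subset_closure hxt)

theorem image_meagre {C : Set NN} (hC : IsMeagre C) : IsMeagre (S '' C) := by
  refine meagre_of_cover hC (fun t => S '' closure t) (fun t ht => ?_) fun s hs => ?_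
  · have key : ∀ V : Set ℝ, IsOpen V → V.Nonempty → ∃ W ⊆ V, IsOpen W ∧ W.Nonempty ∧
        ∀ y ∈ W, y ∉ S '' closure t := by
      intro V hV hne
      by_cases hm : (V ∩ Ioo 0 1).Nonempty
      · obtain ⟨v, hv, hv1⟩ := hm
        have hU : IsOpen (S ⁻¹' (V ∩ Ioo 0 1)) := (hV.inter isOpen_Ioo).preimage S_cont
        have hUne : (S ⁻¹' (V ∩ Ioo 0 1)).Nonempty :=
          ⟨code ⟨v, hv1.1, hv1.2.le⟩, by
            show S _ ∈ V ∩ Ioo 0 1
            rw [S_code]
            exact ⟨hv, hv1⟩⟩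
        obtain ⟨a, b, hab, h⟩ := S_open (hU.sdiff isClosed_closure) (nd_closure ht hU hUne)
        refine ⟨Ioo a b, ?_, isOpen_Ioo, nonempty_Ioo.2 hab, ?_⟩
        · intro y hy
          obtain ⟨x, hx, rfl⟩ := h hy
          exact hx.1.1
        · rintro y hy ⟨x', hx', he⟩
          obtain ⟨x, hx, rfl⟩ := h hy
          rw [S_inj he] at hx'
          exact hx.2 hx'
      · refine ⟨V \ Icc 0 1, sdiff_subset, hV.sdiff isClosed_Icc, ?_, ?_⟩
        · by_contra hn
          rw [not_nonempty_iff_eq_empty, sdiff_eq_empty] at hn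
          have h1 : V ⊆ interior (Icc (0 : ℝ) 1) := interior_maximal hn hV
          rw [interior_Icc] at h1
          obtain ⟨v, hv⟩ := hne
          exact hm ⟨v, hv, h1 hv⟩
        · rintro y hy ⟨x, hx, rfl⟩
          exact hy.2 ⟨(S_pos x).le, S_le x⟩
    have h2 : IsNowhereDense (S '' closure t) := by
      show interior (closure _) = ∅
      by_contra hne
      obtain ⟨W, hW, hWo, ⟨y, hy⟩, h3⟩ := key _ isOpen_interior (nonempty_iff_ne_empty.2 hne)
      obtain ⟨z, hz, hz2⟩ := mem_closure_iff.1 (interior_subset (hW hy)) W hWo hy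
      exact h3 z hz hz2
    exact h2.isMeagre
  · rintro _ ⟨x, hx, rfl⟩
    obtain ⟨t, ht, hxt⟩ := hs hx
    exact mem_biUnion ht (mem_image_of_mem S (subset_closure hxt))

/-- A map from the reals to the Baire space such that the preimages of meager sets are meager. -/
noncomputable def e (x : ℝ) : NN :=
  code ⟨1 - Int.fract x, by have := Int.fract_lt_one x; simp; linarith,
    by have := Int.fract_nonneg x; linarith⟩

theorem S_e (x : ℝ) : S (e x) = 1 - Int.fract x := S_code _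

theorem e_meagre {C : Set NN} (hC : IsMeagre C) : IsMeagre (e ⁻¹' C) := by
  have h1 : e ⁻¹' C ⊆ ⋃ m : ℤ, (Homeomorph.subLeft ((1 : ℝ) + m)) ⁻¹' (S '' C) := by
    intro x hx
    refine mem_iUnion.2 ⟨⌊x⌋, ?_⟩
    show (1 : ℝ) + ⌊x⌋ - x ∈ S '' C
    refine ⟨e x, hx, ?_⟩
    rw [S_e]
    have := Int.self_sub_floor x
    linarith
  refine IsMeagre.mono h1 (isMeagre_iUnion fun m => ?_)
  exact (image_meagre hC).preimage_of_isOpenMap (Homeomorph.continuous _) (Homeomorph.isOpenMap _)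

/-- The compact sets of the Baire space have meager images. -/
theorem compact_image_meagre {C : Set NN} (hC : IsCompact C) : IsMeagre (S '' C) := by
  have hc : IsClosed (S '' C) := (hC.image S_cont).isClosed
  refine nd_closed hc fun U hU hne => ?_
  by_contra hcon
  push Not at hcon
  obtain ⟨u, hu⟩ := hne
  obtain ⟨x, hx, rfl⟩ := hcon u hu
  -- the preimage of `U` is an open subset of `C`
  have h1 : S ⁻¹' U ⊆ C := by
    intro y hy
    obtain ⟨z, hz, he⟩ := hcon (S y) hy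
    rwa [← S_inj he]
  obtain ⟨n, hn⟩ := exists_cyl (hU.preimage S_cont) (z := x) hu
  -- the coordinate `n` is unbounded on the cylinder and bounded on `C`
  have h2 : IsCompact ((fun y : NN => y n) '' C) := hC.image (continuous_apply n)
  obtain ⟨b, hb⟩ := h2.bddAbove
  have h3 : (fun i => if i < n then x i else b + 1) ∈ C :=
    h1 (hn fun i hi => if_pos hi)
  have h4 := hb (mem_image_of_mem _ h3)
  simp at h4

end Pool.Agent.KS6_94.LZ
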