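import Pool.Agent.KS6_94.LZ.A

/-!
# Compact sets `{x | x ≤ f}` and meager sets; meager sets and functions
-/

set_option autoImplicit false

open Set Filter Topology TopologicalSpace Cardinal

namespace Pool.Agent.KS6_94.LZ

/-- cut `x` off at `f` -/
def psi (f : NN) (x : NN) : NN := fun i => if x i ≤ f i then x i else 0

theorem psi_cont (f : NN) : Continuous (psi f) := by
  refine continuous_pi fun i => ?_
  have h : Continuous fun n : ℕ => if n ≤ f i then n else 0 := continuous_of_discreteTopology
  exact h.comp (continuous_apply i)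

theorem psi_le (f x : NN) (i : ℕ) : psi f x i ≤ f i := by
  unfold psi
  split_ifs with h
  · exact h
  · exact Nat.zero_le _

theorem compact_le (f : NN) : IsCompact {x : NN | ∀ i, x i ≤ f i} := by
  have : {x : NN | ∀ i, x i ≤ f i} = Set.pi univ fun i => Iic (f i) := by
    ext x
    simp [Pi.le_def]
  rw [this]
  exact isCompact_univ_pi fun i => (finite_Iic (f i)).isCompact

/-- For each closed nowhere dense set there are bounds for the extensions avoiding it. -/
theorem exists_bound {F : Set NN} (hc : IsClosed F)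
    (hn : ∀ U : Set NN, IsOpen U → U.Nonempty → ∃ x ∈ U, x ∉ F) (m : ℕ) :
    ∃ b : ℕ, ∀ s : Fin m → Fin (m + 1), ∃ (u : NN) (k : ℕ), (∀ i, u i ≤ b ∨ i < m) ∧
      (∀ i : Fin m, u i = s i) ∧ m ≤ k ∧ ∀ y : NN, (∀ i < k, y i = u i) → y ∉ F := by
  have h1 : ∀ s : Fin m → Fin (m + 1), ∃ (b : ℕ) (u : NN) (k : ℕ), (∀ i, u i ≤ b) ∧
      (∀ i : Fin m, u i = s i) ∧ m ≤ k ∧ ∀ y : NN, (∀ i < k, y i = u i) → y ∉ F := by
    intro s
    let z : NN := fun i => if h : i < m then s ⟨i, h⟩ else 0
    obtain ⟨x, hx, hxF⟩ := hn _ (isOpen_cyl m z) ⟨z, fun _ _ => rfl⟩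
    obtain ⟨k, hk⟩ := exists_cyl hc.isOpen_compl (z := x) hxF
    let u : NN := fun i => if i < max k m then x i else 0
    refine ⟨∑ i ∈ Finset.range (max k m), x i, u, max k m, ?_, ?_, le_max_right _ _, ?_⟩
    · intro i
      by_cases hi : i < max k m
      · have h2 : u i = x i := if_pos hi
        rw [h2]
        exact Finset.single_le_sum (f := x) (fun _ _ => Nat.zero_le _) (Finset.mem_range.2 hi)
      · have h2 : u i = 0 := if_neg hi
        rw [h2]
        exact Nat.zero_le _
    · intro i
      have h2 : u i = x i := if_pos (lt_of_lt_of_le i.2 (le_max_right _ _))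
      rw [h2, hx i i.2]
      simp [z]
    · intro y hy
      refine hk fun i hi => ?_
      rw [hy i (lt_of_lt_of_le hi (le_max_left _ _))]
      exact if_pos (lt_of_lt_of_le hi (le_max_left _ _))
  choose b u k h2 h3 h4 h5 using h1
  refine ⟨∑ s, b s, fun s => ⟨u s, k s, fun i => Or.inl ((h2 s i).trans ?_), h3 s, h4 s, h5 s⟩⟩
  exact Finset.single_le_sum (f := b) (fun _ _ => Nat.zero_le _) (Finset.mem_univ s)

/-- For a meager set `M` there is a function `g` such that the preimage of `M` under `psi f` is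
meager for all monotone `f` which are not eventually bounded by `g`. -/
theorem exists_g {M : Set NN} (hM : IsMeagre M) : ∃ g : NN, ∀ f : NN, Monotone f →
    (∃ᶠ n in atTop, g n < f n) → IsMeagre (psi f ⁻¹' M) := by
  obtain ⟨s, hs, hsc, hMs⟩ := isMeagre_iff_countable_union_isNowhereDense.1 hM
  obtain ⟨t, ht⟩ : ∃ t : ℕ → Set NN, (∀ n, IsNowhereDense (t n)) ∧ s ⊆ range t := by
    rcases s.eq_empty_or_nonempty with rfl | hne
    · exact ⟨fun _ => ∅, fun _ => by simp, empty_subset _⟩
    · obtain ⟨t, rfl⟩ := hsc.exists_eq_range hne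
      exact ⟨t, fun n => hs _ ⟨n, rfl⟩, Subset.rfl⟩
  have hb := fun n m => exists_bound (F := closure (t n)) isClosed_closure
    (fun U hU hne => by
      obtain ⟨x, hx, hx2⟩ := nd_closure (ht.1 n) hU hne
      exact ⟨x, hx, hx2⟩) m
  choose b hb using hb
  refine ⟨fun m => ∑ n ∈ Finset.range (m + 1), b n m, fun f hf hfr => ?_⟩
  refine IsMeagre.mono (s := ⋃ n, psi f ⁻¹' closure (t n)) ?_ (isMeagre_iUnion fun n => ?_)
  · intro x hx
    obtain ⟨A, hA, hxA⟩ := hMs hx
    obtain ⟨n, rfl⟩ := ht.2 hA
    exact mem_iUnion.2 ⟨n, subset_closure hxA⟩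
  · refine nd_closed (isClosed_closure.preimage (psi_cont f)) fun U hU hne => ?_
    obtain ⟨z, hz⟩ := hne
    obtain ⟨l, hl⟩ := exists_cyl hU hz
    -- a large place where `f` is above `g`
    obtain ⟨m, hm1, hm2⟩ := frequently_atTop.1 hfr (max (max l n) (∑ i ∈ Finset.range l, z i))
    have hlm : l ≤ m := le_trans (le_trans (le_max_left _ _) (le_max_left _ _)) hm1
    have hnm : n ≤ m := le_trans (le_trans (le_max_right _ _) (le_max_left _ _)) hm1
    have hzm : ∀ i < l, z i ≤ m := fun i hi =>
      (Finset.single_le_sum (f := z) (fun _ _ => Nat.zero_le _) (Finset.mem_range.2 hi)).trans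
        ((le_max_right _ _).trans hm1)
    let w : NN := fun i => if i < l then z i else 0
    have hw : ∀ i, psi f w i ≤ m := by
      intro i
      have h1 : psi f w i ≤ w i := by
        unfold psi
        split_ifs <;> omega
      refine h1.trans ?_
      by_cases hi : i < l
      · rw [show w i = z i from if_pos hi]
        exact hzm i hi
      · rw [show w i = 0 from if_neg hi]
        exact Nat.zero_le _
    obtain ⟨u, k, h2, h3, h4, h5⟩ := hb n m fun i => ⟨psi f w i, Nat.lt_succ_of_le (hw i)⟩
    have hbm : b n m < f m := lt_of_le_of_lt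
      (Finset.single_le_sum (f := fun n => b n m) (fun _ _ => Nat.zero_le _)
        (Finset.mem_range.2 (Nat.lt_succ_of_le hnm))) hm2
    let y : NN := fun i => if i < m then w i else u i
    refine ⟨y, hl fun i hi => ?_, ?_⟩
    · rw [show y i = w i from if_pos (lt_of_lt_of_le hi hlm), show w i = z i from if_pos hi]
    · refine h5 (psi f y) fun i _ => ?_
      by_cases him : i < m
      · have h6 : psi f y i = psi f w i := by
          unfold psi
          rw [show y i = w i from if_pos him]
        rw [h6]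
        exact (h3 ⟨i, him⟩).symm
      · have h6 : y i = u i := if_neg him
        have h7 : u i ≤ f i := by
          rcases h2 i with h | h
          · exact h.trans (hbm.le.trans (hf (not_lt.1 him)))
          · exact absurd h him
        unfold psi
        rw [h6, if_pos h7]

/-- The real function cutting off at `f`. -/
noncomputable def Psi (f : NN) (x : ℝ) : ℝ := S (psi f (e x))

theorem Psi_range (f : NN) : IsMeagre (range (Psi f)) := by
  refine (compact_image_meagre (compact_le f)).mono ?_
  rintro _ ⟨x, rfl⟩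
  exact ⟨_, psi_le f _, rfl⟩

theorem Psi_meagre {M : Set ℝ} (hM : IsMeagre M) : ∃ g : NN, ∀ f : NN, Monotone f →
    (∃ᶠ n in atTop, g n < f n) → IsMeagre (Psi f ⁻¹' M) := by
  obtain ⟨g, hg⟩ := exists_g (preim_meagre hM)
  exact ⟨g, fun f hf hfr => e_meagre (hg f hf hfr)⟩

/-- The fibres of `Psi f` are meager. -/
theorem Psi_fibre (f : NN) (hf : ∀ i, 1 ≤ f i) (y : ℝ) : IsMeagre (Psi f ⁻¹' {y}) := by
  have h1 : Psi f ⁻¹' {y} = e ⁻¹' (psi f ⁻¹' (S ⁻¹' {y})) := rfl
  rw [h1]
  apply e_meagre
  have hc : IsClosed (psi f ⁻¹' (S ⁻¹' {y})) :=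
    (isClosed_singleton.preimage S_cont).preimage (psi_cont f)
  refine nd_closed hc fun U hU hne => ?_
  obtain ⟨z, hz⟩ := hne
  obtain ⟨l, hl⟩ := exists_cyl hU hz
  by_contra hcon
  push Not at hcon
  have key : ∀ c : ℕ, S (psi f fun i => if i < l then z i else c) = y := fun c =>
    hcon _ (hl fun i hi => if_pos hi)
  have h2 := S_inj ((key 0).trans (key 1).symm)
  have h3 := congrFun h2 l
  simp [psi, hf l] at h3

end Pool.Agent.KS6_94.LZ
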