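import Pool.Agent.KS6_94.LZ.B

/-!
# Luzin sets which are small unions of meager sets: the characterization
-/

set_option autoImplicit false

open Set Filter Topology TopologicalSpace Cardinal

namespace Pool.Agent.KS6_94.LZ

/-- The least cardinality of a family of meager sets of reals with union `ℝ`. -/
noncomputable def covM : Cardinal.{0} :=
  sInf {c | ∃ F : Set (Set ℝ), #F = c ∧ (∀ M ∈ F, IsMeagre M) ∧ ⋃₀ F = Set.univ}

/-- `X` is a `κ`-Luzin set. -/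
def Luzin (κ : Cardinal.{0}) (X : Set ℝ) : Prop :=
  κ ≤ #X ∧ ∀ M : Set ℝ, IsMeagre M → #(X ∩ M : Set ℝ) < κ

/-- `X` is a union of fewer than `κ` meager sets. -/
def SmallUnion (κ : Cardinal.{0}) (X : Set ℝ) : Prop :=
  ∃ F : Set (Set ℝ), #F < κ ∧ (∀ M ∈ F, IsMeagre M) ∧ X = ⋃₀ F

/-- The set of the ordinals less than the cardinal `l`. -/
abbrev Ix (l : Cardinal.{0}) : Type := l.ord.ToType

/-- There is a sequence of length `l` of meager sets such that each meager set includes only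
boundedly many of them. -/
def MeagerSeq (l : Cardinal.{0}) : Prop :=
  ∃ M : Ix l → Set ℝ, (∀ i, IsMeagre (M i)) ∧ ∀ N : Set ℝ, IsMeagre N → ∃ i, ∀ j ≥ i, ¬ M j ⊆ N

/-- `f n ≤ g n` for all but finitely many `n`. -/
def LeStar (f g : ℕ → ℕ) : Prop := ∀ᶠ n in atTop, f n ≤ g n

/-- There is a sequence of length `l` of functions such that each function dominates only boundedly
many of them. -/
def FunSeq (l : Cardinal.{0}) : Prop :=
  ∃ f : Ix l → ℕ → ℕ, ∀ g : ℕ → ℕ, ∃ i, ∀ j ≥ i, ¬ LeStar (f j) g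

/-- The unbounding number `𝔟`: the least cardinality of a family of functions which is not dominated
by one function. -/
noncomputable def bNum : Cardinal.{0} :=
  sInf {c | ∃ D : Set (ℕ → ℕ), #D = c ∧ ∀ g : ℕ → ℕ, ∃ f ∈ D, ¬ LeStar f g}

/-- The dominating number `𝔡`. -/
noncomputable def dNum : Cardinal.{0} :=
  sInf {c | ∃ D : Set (ℕ → ℕ), #D = c ∧ ∀ f : ℕ → ℕ, ∃ g ∈ D, LeStar f g}

theorem aleph0_le_cof {κ : Cardinal.{0}} (hκ : κ.IsSingular) : ℵ₀ ≤ κ.ord.cof :=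
  Ordinal.aleph0_le_cof.2 (isSuccLimit_ord hκ.aleph0_le)

theorem bdd {κ : Cardinal.{0}} (A : Set (Ix κ)) (hA : #A < κ.ord.cof) : ∃ b, ∀ a ∈ A, a < b := by
  by_contra h
  push Not at h
  have h1 : IsCofinal A := fun x => by
    obtain ⟨a, ha, hx⟩ := h x
    exact ⟨a, ha, hx⟩
  have h2 := Order.cof_le h1
  rw [Ordinal.cof_toType] at h2
  exact h2.not_gt hA

theorem mk_Iic_lt' {κ : Cardinal.{0}} (h0 : ℵ₀ ≤ κ) (a : Ix κ) : #(Iic a) < κ := by
  rw [← Iio_insert]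
  exact mk_insert_le.trans_lt (add_lt_of_lt h0 (mk_Iio_toType_ord_lt a)
    (one_lt_aleph0.trans_le h0))

/-- A sequence of length `cf κ` which is cofinal in `κ` in the strong sense. -/
theorem exists_idx {κ : Cardinal.{0}} (hκ : ℵ₀ ≤ κ.ord.cof) : ∃ s : Ix κ.ord.cof → Ix κ,
    ∀ b, ∃ i, ∀ j ≥ i, b < s j := by
  obtain ⟨T, hT, hTc⟩ := Order.exists_cof_eq (Ix κ)
  rw [Ordinal.cof_toType] at hTc
  obtain ⟨e⟩ : Nonempty (Ix κ.ord.cof ≃ T) := Cardinal.eq.1 (by rw [mk_ord_toType, hTc])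
  choose s hs using fun j : Ix κ.ord.cof => bdd ((fun i => (e i : Ix κ)) '' Iic j)
    (mk_image_le.trans_lt (mk_Iic_lt' hκ j))
  refine ⟨s, fun b => ?_⟩
  obtain ⟨t, ht, hbt⟩ := hT b
  refine ⟨e.symm ⟨t, ht⟩, fun j hj => ?_⟩
  have h3 := hs j (e (e.symm ⟨t, ht⟩)) ⟨_, hj, rfl⟩
  simp only [Equiv.apply_symm_apply] at h3
  exact lt_of_le_of_lt hbt h3

theorem exists_seq {κ : Cardinal.{0}} (hκ : κ.IsSingular) : ∃ k : Ix κ.ord.cof → Cardinal.{0},
    (∀ j, k j < κ) ∧ (∀ ν < κ, ∃ i, ∀ j ≥ i, ν < k j) ∧ ∀ i, ∃ ν < κ, ∀ j < i, k j ≤ ν := by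
  obtain ⟨s, hs⟩ := exists_idx (aleph0_le_cof hκ)
  refine ⟨fun j => #(Iio (s j)), fun j => mk_Iio_toType_ord_lt _, ?_, ?_⟩
  · intro ν hν
    have hν' : Order.succ ν < κ := hκ.isSuccLimit.succ_lt hν
    obtain ⟨b, hb⟩ : ∃ b : Ix κ, #(Iio b) = Order.succ ν := by
      have h1 : (Order.succ ν).ord < Ordinal.type (α := Ix κ) (· < ·) := by
        rw [Ordinal.type_toType]
        exact ord_lt_ord.2 hν'
      refine ⟨Ordinal.enum (α := Ix κ) (· < ·) ⟨_, h1⟩, ?_⟩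
      have h2 := Ordinal.card_typein (r := ((· < ·) : Ix κ → Ix κ → Prop))
        (Ordinal.enum (α := Ix κ) (· < ·) ⟨_, h1⟩)
      rw [Ordinal.typein_enum, card_ord] at h2
      exact h2.symm
    obtain ⟨i, hi⟩ := hs b
    refine ⟨i, fun j hj => ?_⟩
    calc ν < Order.succ ν := Order.lt_succ _
      _ = #(Iio b) := hb.symm
      _ ≤ #(Iio (s j)) := mk_le_mk_of_subset (Iio_subset_Iio (hi j hj).le)
  · intro i
    obtain ⟨b, hb⟩ := bdd (s '' Iio i) (mk_image_le.trans_lt (mk_Iio_toType_ord_lt i))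
    exact ⟨#(Iio b), mk_Iio_toType_ord_lt b,
      fun j hj => mk_le_mk_of_subset (Iio_subset_Iio (hb _ ⟨j, hj, rfl⟩).le)⟩

theorem av {ι : Type} {M : ι → Set ℝ} (h1 : #ι < covM) (h2 : ∀ i, IsMeagre (M i)) :
    ∃ x, ∀ i, x ∉ M i := by
  by_contra! c
  have h3 : covM ≤ #(range M) := csInf_le' ⟨range M, rfl, forall_mem_range.2 h2, by
    rw [sUnion_range]
    exact eq_univ_of_forall fun x => mem_iUnion.2 (c x)⟩
  exact (h3.trans mk_range_le).not_gt h1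

/-- (1) implies (2). -/
theorem seq_of_union {κ : Cardinal.{0}} (hs : κ.IsSingular) {X : Set ℝ} (hX : Luzin κ X)
    (hU : SmallUnion κ X) : MeagerSeq κ.ord.cof := by
  obtain ⟨F, hF, hFm, rfl⟩ := hU
  obtain ⟨k, hk1, hk2, -⟩ := exists_seq hs
  have key : ∀ μ < κ, ∃ M ∈ F, μ < #M := by
    intro μ hμ
    by_contra! c
    have h1 : #(⋃₀ F) ≤ #F * μ := by
      rw [sUnion_eq_iUnion]
      refine (mk_iUnion_le_sum_mk).trans ((sum_le_sum (fun M : F => #M.1) (fun _ => μ)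
        fun M => c M.1 M.2).trans ?_)
      rw [sum_const']
    exact (hX.1.trans h1).not_gt (mul_lt_of_lt hs.aleph0_le hF hμ)
  choose M hM1 hM2 using fun j => key (k j) (hk1 j)
  refine ⟨M, fun j => hFm _ (hM1 j), fun N hN => ?_⟩
  obtain ⟨i, hi⟩ := hk2 _ (hX.2 N hN)
  refine ⟨i, fun j hj hsub => ?_⟩
  have h1 : #(M j) ≤ #(⋃₀ F ∩ N : Set ℝ) :=
    mk_le_mk_of_subset (subset_inter (subset_sUnion_of_mem (hM1 j)) hsub)
  exact (hi j hj).not_ge ((hM2 j).le.trans h1)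

theorem exists_closed {M : Set ℝ} (hM : IsMeagre M) : ∃ F : ℕ → Set ℝ, (∀ n, IsClosed (F n)) ∧
    Monotone F ∧ (∀ n, IsMeagre (F n)) ∧ M ⊆ ⋃ n, F n := by
  obtain ⟨s, hs, hsc, hMs⟩ := isMeagre_iff_countable_union_isNowhereDense.1 hM
  obtain ⟨t, ht⟩ : ∃ t : ℕ → Set ℝ, (∀ n, IsNowhereDense (t n)) ∧ s ⊆ range t := by
    rcases s.eq_empty_or_nonempty with rfl | hne
    · exact ⟨fun _ => ∅, fun _ => by simp, empty_subset _⟩
    · obtain ⟨t, rfl⟩ := hsc.exists_eq_range hne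
      exact ⟨t, fun n => hs _ ⟨n, rfl⟩, Subset.rfl⟩
  refine ⟨fun n => ⋃ i ∈ Finset.range (n + 1), closure (t i), fun n => ?_, ?_, fun n => ?_, ?_⟩
  · exact isClosed_biUnion_finset fun i _ => isClosed_closure
  · intro m n hmn
    refine biUnion_mono ?_ fun _ _ => Subset.rfl
    intro i hi
    have h1 : i < m + 1 := by simpa using hi
    have h2 : i < n + 1 := by omega
    simpa using h2
  · refine isMeagre_biUnion (Finset.countable_toSet _) fun i _ => ?_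
    exact (ht.1 i).closure.isMeagre
  · intro x hx
    obtain ⟨A, hA, hxA⟩ := hMs hx
    obtain ⟨n, rfl⟩ := ht.2 hA
    refine mem_iUnion.2 ⟨n, mem_biUnion (x := n) ?_ (subset_closure hxA)⟩
    simp

/-- (2) implies the second half of (3). -/
theorem fun_of_meager {κ : Cardinal.{0}} (hs : κ.IsSingular) (hc : κ ≤ covM)
    (h : MeagerSeq κ.ord.cof) : FunSeq κ.ord.cof := by
  obtain ⟨M, hM, hN⟩ := h
  choose F hF1 hF2 hF3 hF4 using fun j => exists_closed (hM j)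
  obtain ⟨w, hw⟩ : ∃ w : ℝ, ∀ p : Ix κ.ord.cof × ℚ,
      w ∉ (fun x : ℝ => x + (p.2 : ℝ)) ⁻¹' (⋃ n, F p.1 n) := by
    refine av ?_ fun p => ?_
    · rw [mk_prod, lift_id, lift_id, mk_ord_toType]
      refine lt_of_lt_of_le (mul_lt_of_lt hs.aleph0_le hs.cof_ord_lt ?_) hc
      exact lt_of_le_of_lt (mk_le_aleph0.trans (aleph0_le_cof hs)) hs.cof_ord_lt
    · exact (isMeagre_iUnion fun n => hF3 p.1 n).preimage_of_isOpenMap
        (continuous_add_const _) (isOpenMap_add_right _)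
  obtain ⟨q, hq⟩ := exists_surjective_nat ℚ
  let D : ℕ → ℝ := fun i => w + (q i : ℝ)
  have hD : ∀ i j n, D i ∉ F j n := fun i j n h => hw (j, q i) (mem_iUnion.2 ⟨n, h⟩)
  have hdense : ∀ U : Set ℝ, IsOpen U → U.Nonempty → ∃ i, D i ∈ U := by
    intro U hU hne
    obtain ⟨u, hu⟩ := hne
    have h1 : IsOpen ((fun x : ℝ => w + x) ⁻¹' U) := hU.preimage (by fun_prop)
    obtain ⟨r, hr⟩ := Rat.denseRange_cast.exists_mem_open h1
      ⟨u - w, by show w + (u - w) ∈ U; rwa [add_sub_cancel]⟩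
    obtain ⟨i, rfl⟩ := hq r
    exact ⟨i, hr⟩
  have hf : ∀ (j : Ix κ.ord.cof) (n : ℕ), ∃ N : ℕ, ∀ i ∈ Finset.range (n + 1),
      ∀ y ∈ F j n, 1 / ((N : ℝ) + 1) ≤ dist y (D i) := by
    intro j n
    have h1 : ∀ i ∈ Finset.range (n + 1), ∀ᶠ N : ℕ in atTop,
        ∀ y ∈ F j n, 1 / ((N : ℝ) + 1) ≤ dist y (D i) := by
      intro i _
      obtain ⟨ε, hε, hball⟩ := Metric.isOpen_iff.1 (hF1 j n).isOpen_compl (D i) (hD i j n)
      filter_upwards [(tendsto_one_div_add_atTop_nhds_zero_nat (𝕜 := ℝ)).eventually_lt_const hε]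
        with N hN y hy
      by_contra hlt
      push Not at hlt
      exact hball (Metric.mem_ball.2 (hlt.trans hN)) hy
    exact ((Finset.range (n + 1)).eventually_all.2 h1).exists
  choose f hf using hf
  refine ⟨f, fun g => ?_⟩
  let O : ℕ → Set ℝ := fun m => ⋃ n, ⋃ (_ : m ≤ n), ⋃ i, ⋃ (_ : i ≤ n),
    Metric.ball (D i) (1 / ((g n : ℝ) + 1))
  have hO : ∀ m, IsOpen (O m) := fun m => isOpen_iUnion fun n => isOpen_iUnion fun _ =>
    isOpen_iUnion fun i => isOpen_iUnion fun _ => Metric.isOpen_ball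
  have hNm : IsMeagre (⋃ m, (O m)ᶜ) := by
    refine isMeagre_iUnion fun m => nd_closed (hO m).isClosed_compl fun U hU hne => ?_
    obtain ⟨i, hi⟩ := hdense U hU hne
    refine ⟨D i, hi, fun h => h ?_⟩
    refine mem_iUnion.2 ⟨max m i, mem_iUnion.2 ⟨le_max_left _ _, mem_iUnion.2 ⟨i,
      mem_iUnion.2 ⟨le_max_right _ _, Metric.mem_ball_self (by positivity)⟩⟩⟩⟩
  obtain ⟨i0, hi0⟩ := hN _ hNm
  refine ⟨i0, fun j hj hle => hi0 j hj ?_⟩
  intro x hx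
  obtain ⟨n0, hn0⟩ := mem_iUnion.1 (hF4 j hx)
  obtain ⟨m0, hm0⟩ := eventually_atTop.1 hle
  refine mem_iUnion.2 ⟨max n0 m0, fun hxO => ?_⟩
  obtain ⟨n, hxO⟩ := mem_iUnion.1 hxO
  obtain ⟨hn, hxO⟩ := mem_iUnion.1 hxO
  obtain ⟨i, hxO⟩ := mem_iUnion.1 hxO
  obtain ⟨hi, hxO⟩ := mem_iUnion.1 hxO
  have h1 := hf j n i (Finset.mem_range.2 (Nat.lt_succ_of_le hi)) x
    (hF2 j ((le_max_left _ _).trans hn) hn0)
  have h2 : (f j n : ℝ) ≤ g n := by exact_mod_cast hm0 n ((le_max_right _ _).trans hn)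
  have h3 : 1 / ((g n : ℝ) + 1) ≤ 1 / ((f j n : ℝ) + 1) :=
    one_div_le_one_div_of_le (by positivity) (by linarith)
  exact absurd (Metric.mem_ball.1 hxO) (not_lt.2 (h3.trans h1))

theorem mono_fun (f : ℕ → ℕ) : ∃ f' : ℕ → ℕ, Monotone f' ∧ (∀ i, 1 ≤ f' i) ∧ ∀ i, f i < f' i := by
  refine ⟨fun n => 1 + ∑ i ∈ Finset.range (n + 1), f i, ?_, fun n => Nat.le_add_right _ _,
    fun n => ?_⟩
  · intro m n hmn
    have : ∑ i ∈ Finset.range (m + 1), f i ≤ ∑ i ∈ Finset.range (n + 1), f i :=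
      Finset.sum_le_sum_of_subset (Finset.range_subset_range.2 (by omega))
    show 1 + _ ≤ 1 + _
    omega
  · have : f n ≤ ∑ i ∈ Finset.range (n + 1), f i :=
      Finset.single_le_sum (fun _ _ => Nat.zero_le _) (Finset.mem_range.2 (Nat.lt_succ_self n))
    show f n < 1 + _
    omega

/-- (3) implies (1). -/
theorem union_of_fun {κ : Cardinal.{0}} (hs : κ.IsSingular) {X : Set ℝ} (hX : Luzin κ X)
    (hf : FunSeq κ.ord.cof) : ∃ Y : Set ℝ, Luzin κ Y ∧ SmallUnion κ Y := by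
  obtain ⟨k, hk1, hk2, hk3⟩ := exists_seq hs
  have h0 : ℵ₀ ≤ κ := hs.aleph0_le
  have hcard : ∀ Z : Ix κ.ord.cof → Set ℝ, #(range Z) < κ := fun Z =>
    mk_range_le.trans_lt (by rw [mk_ord_toType]; exact hs.cof_ord_lt)
  by_cases hcase : ∀ μ < κ, ∃ M : Set ℝ, IsMeagre M ∧ μ < #(X ∩ M : Set ℝ)
  · choose M hM1 hM2 using fun j => hcase (k j) (hk1 j)
    refine ⟨⋃ j, X ∩ M j, ⟨?_, fun N hN => ?_⟩, range fun j => X ∩ M j, hcard _, ?_,
      (sUnion_range _).symm⟩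
    · by_contra! c
      obtain ⟨i, hi⟩ := hk2 _ c
      exact ((hi i le_rfl).trans (hM2 i)).not_ge
        (mk_le_mk_of_subset (subset_iUnion (fun j => X ∩ M j) i))
    · exact (mk_le_mk_of_subset (inter_subset_inter_left N
        (iUnion_subset fun j => inter_subset_left))).trans_lt (hX.2 N hN)
    · rintro _ ⟨j, rfl⟩
      exact (hM1 j).mono inter_subset_right
  · push Not at hcase
    obtain ⟨μ, hμ, hμ2⟩ := hcase
    obtain ⟨f, hf⟩ := hf
    choose f' hf1 hf2 hf3 using fun j => mono_fun (f j)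
    choose Z hZ1 hZ2 using fun j => le_mk_iff_exists_subset.1 ((hk1 j).le.trans hX.1)
    let Y : Ix κ.ord.cof → Set ℝ := fun j => Psi (f' j) '' Z j
    refine ⟨⋃ j, Y j, ⟨?_, fun N hN => ?_⟩, range Y, hcard _, ?_, (sUnion_range _).symm⟩
    · by_contra! c
      have hν : max (max μ #(⋃ j, Y j)) ℵ₀ < κ :=
        max_lt (max_lt hμ c) (lt_of_le_of_lt (aleph0_le_cof hs) hs.cof_ord_lt)
      obtain ⟨i, hi⟩ := hk2 _ hν
      have h1 : #(Z i) ≤ #(Y i) * μ := by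
        have h2 : Z i ⊆ ⋃ y : Y i, X ∩ Psi (f' i) ⁻¹' {y.1} := fun z hz =>
          mem_iUnion.2 ⟨⟨_, mem_image_of_mem _ hz⟩, hZ1 i hz, rfl⟩
        refine (mk_le_mk_of_subset h2).trans (mk_iUnion_le_sum_mk.trans
          ((sum_le_sum _ (fun _ => μ) fun y => hμ2 _ (Psi_fibre _ (hf2 i) _)).trans ?_))
        rw [sum_const']
      have h3 : #(Y i) * μ ≤ max (max μ #(⋃ j, Y j)) ℵ₀ := by
        refine (mul_le_mul' (mk_le_mk_of_subset (subset_iUnion Y i)) le_rfl).trans ?_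
        refine (mul_le_max _ _).trans ?_
        exact max_le (max_le (le_max_of_le_left (le_max_right _ _))
          (le_max_of_le_left (le_max_left _ _))) (le_max_right _ _)
      exact (hi i le_rfl).not_ge ((hZ2 i).symm.le.trans (h1.trans h3))
    · obtain ⟨g, hg⟩ := Psi_meagre hN
      obtain ⟨i, hi⟩ := hf g
      obtain ⟨ν, hν1, hν2⟩ := hk3 i
      have h1 : ∀ j, #(Y j ∩ N : Set ℝ) ≤ max ν μ := by
        intro j
        rcases lt_or_ge j i with hj | hj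
        · refine (mk_le_mk_of_subset inter_subset_left).trans (mk_image_le.trans ?_)
          rw [hZ2 j]
          exact (hν2 j hj).trans (le_max_left _ _)
        · have h2 : ∃ᶠ n in atTop, g n < f' j n := by
            intro hcon
            apply hi j hj
            filter_upwards [hcon] with n hn
            exact (hf3 j n).le.trans (not_lt.1 hn)
          have h3 : Y j ∩ N ⊆ Psi (f' j) '' (X ∩ Psi (f' j) ⁻¹' N) := by
            rintro _ ⟨⟨z, hz, rfl⟩, hzN⟩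
            exact ⟨z, ⟨hZ1 j hz, hzN⟩, rfl⟩
          exact (mk_le_mk_of_subset h3).trans (mk_image_le.trans
            ((hμ2 _ (hg _ (hf1 j) h2)).trans (le_max_right _ _)))
      rw [iUnion_inter]
      refine (mk_iUnion_le_sum_mk.trans (sum_le_sum _ (fun _ => max ν μ) h1)).trans_lt ?_
      rw [sum_const', mk_ord_toType]
      exact mul_lt_of_lt h0 hs.cof_ord_lt (max_lt hν1 hμ)
    · rintro _ ⟨j, rfl⟩
      exact (Psi_range (f' j)).mono (image_subset_range _ _)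

/-- A sequence of length `cf 𝔡` as in (3). -/
theorem fun_of_d (hs : ℵ₀ ≤ dNum.ord.cof) : FunSeq dNum.ord.cof := by
  obtain ⟨s, hs1⟩ := exists_idx hs
  have hne : {c | ∃ D : Set (ℕ → ℕ), #D = c ∧ ∀ f : ℕ → ℕ, ∃ g ∈ D, LeStar f g}.Nonempty :=
    ⟨_, univ, rfl, fun f => ⟨f, mem_univ _, Eventually.of_forall fun _ => le_rfl⟩⟩
  obtain ⟨D, hD, hD2⟩ := csInf_mem hne
  obtain ⟨e⟩ : Nonempty (Ix dNum ≃ D) := Cardinal.eq.1 (by rw [mk_ord_toType, hD]; rfl)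
  have h1 : ∀ j, ∃ f : ℕ → ℕ, ∀ b < s j, ¬ LeStar f (e b).1 := by
    intro j
    by_contra! c
    have h2 : dNum ≤ #((fun b => (e b).1) '' Iio (s j)) :=
      csInf_le' ⟨_, rfl, fun f => by
        obtain ⟨b, hb, h⟩ := c f
        exact ⟨_, ⟨b, hb, rfl⟩, h⟩⟩
    exact (h2.trans mk_image_le).not_gt (mk_Iio_toType_ord_lt _)
  choose f hf using h1
  refine ⟨f, fun g => ?_⟩
  obtain ⟨g', hg', hle⟩ := hD2 g
  obtain ⟨i, hi⟩ := hs1 (e.symm ⟨g', hg'⟩)
  refine ⟨i, fun j hj h => hf j _ (hi j hj) ?_⟩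
  simp only [Equiv.apply_symm_apply]
  filter_upwards [h, hle] with n h1 h2
  exact h1.trans h2

/-- A sequence of length `𝔟` as in (3). -/
theorem fun_of_b (hs : ℵ₀ ≤ bNum) : FunSeq bNum := by
  have hne : {c | ∃ D : Set (ℕ → ℕ), #D = c ∧ ∀ g : ℕ → ℕ, ∃ f ∈ D, ¬ LeStar f g}.Nonempty := by
    refine ⟨_, Set.univ, rfl, fun g => ⟨fun n => g n + 1, mem_univ _, fun h => ?_⟩⟩
    obtain ⟨n, hn⟩ := h.exists
    have hn' : g n + 1 ≤ g n := hn
    omega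
  obtain ⟨D, hD, hD2⟩ := csInf_mem hne
  obtain ⟨e⟩ : Nonempty (Ix bNum ≃ D) := Cardinal.eq.1 (by rw [mk_ord_toType, hD]; rfl)
  have h1 : ∀ j, ∃ f : ℕ → ℕ, ∀ b ≤ j, LeStar (e b).1 f := by
    intro j
    by_contra! c
    have h2 : bNum ≤ #((fun b => (e b).1) '' Iic j) :=
      csInf_le' ⟨_, rfl, fun f => by
        obtain ⟨b, hb, h⟩ := c f
        exact ⟨_, ⟨b, hb, rfl⟩, h⟩⟩
    exact (h2.trans mk_image_le).not_gt (mk_Iic_lt' hs _)
  choose f hf using h1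
  refine ⟨f, fun g => ?_⟩
  by_contra! c
  obtain ⟨f0, hf0, hg⟩ := hD2 g
  obtain ⟨j, hj, hle⟩ := c (e.symm ⟨f0, hf0⟩)
  have h3 := hf j _ hj
  simp only [Equiv.apply_symm_apply] at h3
  apply hg
  filter_upwards [h3, hle] with n h1 h2
  exact h1.trans h2

theorem tfae {κ : Cardinal.{0}} (hs : κ.IsSingular) (hc : κ ≤ covM) :
    List.TFAE [∃ X, Luzin κ X ∧ SmallUnion κ X, (∃ X, Luzin κ X) ∧ MeagerSeq κ.ord.cof,
      (∃ X, Luzin κ X) ∧ FunSeq κ.ord.cof] := by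
  tfae_have 1 → 2 := fun ⟨X, h1, h2⟩ => ⟨⟨X, h1⟩, seq_of_union hs h1 h2⟩
  tfae_have 2 → 3 := fun ⟨h1, h2⟩ => ⟨h1, fun_of_meager hs hc h2⟩
  tfae_have 3 → 1 := fun ⟨⟨X, h1⟩, h2⟩ => union_of_fun hs h1 h2
  tfae_finish

theorem none_of_lt {κ : Cardinal.{0}} (hs : κ.IsSingular) (hc : κ ≤ covM)
    (h : κ.ord.cof < bNum) (X : Set ℝ) (hX : Luzin κ X) : ¬ SmallUnion κ X := by
  intro hU
  obtain ⟨f, hf⟩ := fun_of_meager hs hc (seq_of_union hs hX hU)
  have h1 : bNum ≤ #(range f) := csInf_le' ⟨_, rfl, fun g => by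
    obtain ⟨i, hi⟩ := hf g
    exact ⟨f i, mem_range_self i, hi i le_rfl⟩⟩
  have h2 : #(range f) ≤ κ.ord.cof := mk_range_le.trans (by rw [mk_ord_toType])
  exact (h1.trans h2).not_gt h

theorem of_cof {κ : Cardinal.{0}} (hs : κ.IsSingular)
    (h : κ.ord.cof = bNum ∨ κ.ord.cof = dNum.ord.cof) :
    (∃ X, Luzin κ X) ↔ ∃ X, Luzin κ X ∧ SmallUnion κ X := by
  refine ⟨fun ⟨X, hX⟩ => union_of_fun hs hX ?_, fun ⟨X, hX, _⟩ => ⟨X, hX⟩⟩
  have h0 := aleph0_le_cof hs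
  rcases h with h | h
  · rw [h] at h0 ⊢
    exact fun_of_b h0
  · rw [h] at h0 ⊢
    exact fun_of_d h0

end Pool.Agent.KS6_94.LZ
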