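import Mathlib
import Pool.Graph.R_pool_sql_team_seeded_2aa45f1a.Q307.LU.Final

/-!
# The Cohen model for all singular `κ` with `κ ^ ℵ₀ = κ`
-/

set_option autoImplicit false

namespace Pool.Agent.KS6_94.LZ

open Cardinal Ordinal Pool.Agent.Helper669.Forcing Pool.Agent.Q307.CF Pool.Agent.Q307.LU

theorem exists_order' {κ : Cardinal.{0}} (hcof : ℵ₀ < κ.ord.cof) :
    ∃ (J : Type) (_ : LinearOrder J) (_ : WellFoundedLT J), #J = κ ∧ (∀ b : J, #(Set.Iio b) < κ) ∧
      (∀ S : Set J, S.Countable → ∃ b, ∀ s ∈ S, s < b) ∧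
      ∃ g : κ.ord.cof.out → J, ∀ b, ∃ y, b ≤ g y := by
  have hc : Order.cof κ.ord.ToType = κ.ord.cof := by rw [cof_toType]
  have hcard : #(κ.ord.ToType) = κ := by rw [mk_toType, card_ord]
  refine ⟨κ.ord.ToType, inferInstance, inferInstance, hcard, fun b => ?_, fun S hS => ?_, ?_⟩
  · have := Cardinal.mk_Iio_lt b (by rw [hcard, type_toType])
    rwa [hcard] at this
  · by_contra hcon
    push Not at hcon
    have h1 : IsCofinal S := fun b => by
      obtain ⟨s, hs, hb⟩ := hcon b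
      exact ⟨s, hs, hb⟩
    have h2 := Order.cof_le h1
    rw [hc] at h2
    have h3 : #S ≤ ℵ₀ := Cardinal.le_aleph0_iff_set_countable.2 hS
    exact absurd (h2.trans h3) (not_le.2 hcof)
  · obtain ⟨s, hs, hs'⟩ := Order.exists_cof_eq κ.ord.ToType
    rw [hc] at hs'
    obtain ⟨e⟩ : Nonempty (κ.ord.cof.out ≃ s) := Cardinal.eq.1 (by rw [mk_out, hs'])
    refine ⟨fun y => (e y).1, fun b => ?_⟩
    obtain ⟨c, hc, hbc⟩ := hs b
    exact ⟨e.symm ⟨c, hc⟩, by simpa using hbc⟩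

theorem pow_aleph0_eq' {κ : Cardinal.{0}} (h : κ.IsStrongLimit) (hcof : ℵ₀ < κ.ord.cof) :
    κ ^ ℵ₀ = κ := by
  have hκ0 : ℵ₀ < κ := hcof.trans_le (cof_ord_le κ)
  obtain ⟨J, _, _, hJ, hIio, hb, _⟩ := exists_order' hcof
  apply le_antisymm _ (self_le_power κ one_le_aleph0)
  have hinf : ℵ₀ ≤ κ := h.aleph0_le
  have h1 : κ ^ ℵ₀ = #(ℕ → J) := by simp [mk_pi, hJ]
  rw [h1]
  have h2 : ∀ f : ℕ → J, ∃ b, ∀ n, f n < b := fun f => by
    obtain ⟨b, hb'⟩ := hb (Set.range f) (Set.countable_range f)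
    exact ⟨b, fun n => hb' _ ⟨n, rfl⟩⟩
  choose b hb' using h2
  have h3 : #(ℕ → J) ≤ #(Σ c : J, ℕ → Set.Iio c) := by
    refine mk_le_of_injective (f := fun f => ⟨b f, fun n => ⟨f n, hb' f n⟩⟩) ?_
    intro f f' hff
    simp only [Sigma.mk.injEq] at hff
    obtain ⟨h4, h5⟩ := hff
    funext n
    have : ∀ (c c' : J) (u : ℕ → Set.Iio c) (u' : ℕ → Set.Iio c'), c = c' → HEq u u' →
        (u n).1 = (u' n).1 := by
      rintro c _ u u' rfl h
      rw [eq_of_heq h]
    exact this _ _ _ _ h4 h5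
  refine h3.trans ?_
  rw [mk_sigma]
  refine (Cardinal.sum_le_sum _ (fun _ => κ) fun c => ?_).trans ?_
  · have h6 : #(ℕ → Set.Iio c) = #(Set.Iio c) ^ ℵ₀ := by simp [mk_pi]
    rw [h6]
    have h7 : #(Set.Iio c) ≤ max (#(Set.Iio c)) ℵ₀ := le_max_left _ _
    have h8 : max (#(Set.Iio c)) ℵ₀ ≠ 0 := (aleph0_pos.trans_le (le_max_right _ _)).ne'
    refine (power_le_power_right h7).trans ?_
    refine (power_le_power_left h8 (le_max_right (#(Set.Iio c)) ℵ₀)).trans ?_
    rw [power_self_eq (le_max_right _ _)]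
    exact (h.isStrongPrelimit (max_lt (hIio c) hκ0)).le
  · rw [Cardinal.sum_const', hJ]
    exact (mul_eq_self hinf).le

/-- Each regular uncountable cardinal is the cofinality of a singular `κ` with `κ ^ ℵ₀ = κ`. -/
theorem exists_cardinal' {μ : Cardinal.{0}} (hμ : μ.IsRegular) (h0 : ℵ₀ < μ) :
    ∃ κ : Cardinal.{0}, κ.IsSingular ∧ κ ^ ℵ₀ = κ ∧ κ.ord.cof = μ := by
  have hl : Order.IsSuccLimit μ.ord := isSuccLimit_ord hμ.aleph0_le
  have hl2 : Order.IsSuccLimit (μ.ord + μ.ord) := isSuccLimit_add _ hl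
  have hcof : (ℶ_ (μ.ord + μ.ord) : Cardinal.{0}).ord.cof = μ := by
    have h := cof_map_of_isNormal (isNormal_ord.comp isNormal_beth) hl2
    refine h.trans ?_
    rw [cof_add _ hl.ne_bot, hμ.cof_ord]
  have hlt : μ < ℶ_ (μ.ord + μ.ord) := by
    have h1 : StrictMono fun o : Ordinal.{0} => (ℶ_ o).ord := ord_strictMono.comp beth_strictMono
    have h2 : μ.ord ≤ (ℶ_ μ.ord).ord := h1.le_apply
    refine (ord_le_ord.1 h2).trans_lt (beth_strictMono ?_)
    exact lt_add_of_pos_right _ hl.bot_lt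
  have hsl : (ℶ_ (μ.ord + μ.ord) : Cardinal.{0}).IsStrongLimit :=
    isStrongLimit_beth.2 hl2.isSuccPrelimit
  refine ⟨ℶ_ (μ.ord + μ.ord), ?_, pow_aleph0_eq' hsl (by rw [hcof]; exact h0), hcof⟩
  rcases isRegular_or_isSingular hsl.aleph0_le with h | h
  · have h2 := h.cof_ord
    rw [hcof] at h2
    exact absurd h2 hlt.ne
  · exact h

theorem forced {κ : Cardinal.{0}} (hκ : κ.IsSingular) (hpow : κ ^ ℵ₀ = κ) :
    ∃ (P : Type) (_ : Preorder P), Nonempty P ∧ ∀ p : P,
      p ∈ CardinalsPreserved.{0, 0} P ∧ p ∈ SingularIs P κ ∧ p ∈ CovIs P κ ∧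
        p ∈ HasLuzinUnion P κ := by
  classical
  have hcof : ℵ₀ < κ.ord.cof := by
    by_contra h
    push Not at h
    have h1 := lt_power_cof_ord hκ.aleph0_le
    have h2 : κ ^ κ.ord.cof ≤ κ ^ ℵ₀ :=
      power_le_power_left (aleph0_pos.trans_le hκ.aleph0_le).ne' h
    rw [hpow] at h2
    exact h1.not_ge h2
  obtain ⟨J, _, _, hJ, hIio, hb, g, hg⟩ := exists_order' hcof
  have hκ0 : ℵ₀ < κ := hcof.trans_le (cof_ord_le κ)
  have hlt : κ.ord.cof < κ := hκ.cof_ord_lt
  generalize hlam : κ.ord.cof = lam at *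
  -- the index sets
  obtain ⟨e⟩ : Nonempty (κ.out ≃ J) := Cardinal.eq.1 (by rw [mk_out, hJ])
  have hgi : ∀ x : κ.out, ∃ i, e x ≤ g i := fun x => hg (e x)
  choose G hG using hgi
  have hX : #κ.out = κ := mk_out κ
  have hsmall : ∀ S : Set lam.out, S.Countable → #(G ⁻¹' S) < #κ.out := by
    intro S hS
    obtain ⟨b, hb'⟩ := hb (g '' S) (hS.image g)
    have h1 : #(G ⁻¹' S) ≤ #(Set.Iio b) := by
      refine Cardinal.mk_le_of_injective (f := fun x : G ⁻¹' S =>
        (⟨e x.1, lt_of_le_of_lt (hG x.1) (hb' _ ⟨_, x.2, rfl⟩)⟩ : Set.Iio b)) ?_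
      intro x y h
      exact Subtype.ext (e.injective (congrArg Subtype.val h))
    rw [hX]
    exact h1.trans_lt (hIio b)
  let P := Co ((lam.out ⊕ κ.out) × ℕ)
  have hcard : #P ≤ κ := by
    refine Co.mk_le.trans (max_le ?_ hκ0.le)
    rw [mk_prod, mk_sum]
    simp only [Cardinal.lift_uzero, mk_out, mk_nat, Cardinal.lift_id, Cardinal.lift_aleph0]
    calc (lam + κ) * ℵ₀ ≤ (κ + κ) * κ := mul_le_mul' (add_le_add hlt.le le_rfl) hκ0.le
      _ = κ := by rw [add_eq_self hκ0.le, mul_eq_self hκ0.le]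
  refine ⟨P, inferInstance, inferInstance, fun p => ⟨Co.ccc.cardinalsPreserved p, ?_, ⟨?_, ?_⟩, ?_⟩⟩
  · -- `κ` is singular
    have hc : ∃ h : lam.out → κ.ord.ToType, ∀ b, ∃ x, b ≤ h x := by
      have hc : Order.cof κ.ord.ToType = lam := by rw [cof_toType, hlam]
      obtain ⟨s, hs, hs'⟩ := Order.exists_cof_eq κ.ord.ToType
      rw [hc] at hs'
      obtain ⟨e'⟩ : Nonempty (lam.out ≃ s) := Cardinal.eq.1 (by rw [mk_out, hs'])
      refine ⟨fun y => (e' y).1, fun b => ?_⟩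
      obtain ⟨c, hc, hbc⟩ := hs b
      exact ⟨e'.symm ⟨c, hc⟩, by simpa using hbc⟩
    obtain ⟨h, hh⟩ := hc
    refine mem_fex_of_mem lam (down_fex _) (mem_fex_of_mem hlt (down_fex _)
      (mem_fex_of_mem (fun x y => {_q : P | h x = y}) (down_fand (down_IsFun _)
        (down_fall fun _ => down_fex _)) ⟨isFun_chk h p, fun b => ?_⟩))
    obtain ⟨x, hx⟩ := hh b
    refine mem_fex_of_mem x (down_fex _) (mem_fex_of_mem (h x) (down_fand (down_fground _)
      (down_meets _)) ⟨hx, meets_of_mem rfl⟩)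
  · -- `cov(M) ≤ κ`
    exact covLe_of_continuumLe (Co.ccc.continuumLe hκ0.le hcard hpow p)
  · -- `cov(M) ≥ κ`
    intro μ hμ
    exact not_covLe (by rwa [hX]) (by rwa [hX, mk_out]) p
  · -- the Luzin set
    refine mem_fex_of_mem lam (down_fex _) (mem_fex_of_mem hlt (down_fex _) ?_)
    refine mem_fex_of_mem (fun x => E G x) (down_fex _) ?_
    have hdown : ∀ (E' : κ.out → ℕ → ℕ → Set P) (M' : lam.out → ℕ → List ℕ → Set P),
        Down (fand (fall fun i => IsFun (E' i))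
        (fand (fall fun i => fall fun j => fall fun _ : i ≠ j => fnot (SameReal (E' i) (E' j)))
          (fand
            (fall fun T : ℕ → List ℕ → Set P =>
              fimp (IsMeagerCode T) (fnot (FullSize fun i => InMeager (E' i) T)))
            (fand (fall fun y => IsMeagerCode (M' y))
              (fall fun i => fex fun y => InMeager (E' i) (M' y)))))) := fun E' M' =>
      down_fand (down_fall fun _ => down_IsFun _)
        (down_fand (down_fall fun _ => down_fall fun _ => down_fall fun _ => down_fnot _)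
          (down_fand (down_fall fun _ => down_fimp _ _)
            (down_fand (down_fall fun _ => down_IsMeagerCode _) (down_fall fun _ => down_fex _))))
    refine mem_fex_of_mem (fun i => M i) (hdown _ _) ⟨fun i => isFun_E G i p, fun i j hij =>
      E_distinct G hij p, fun T => luzin G (by rwa [hX]) hsmall T p, fun y => isMeagerCode_M y p,
      fun i => mem_fex_of_mem (G i) (down_InMeager _ _) (inMeager_E G i p)⟩

end Pool.Agent.KS6_94.LZ
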